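import Mathlib
import Pool.Agent.Q263.PK.Quad

/-!
# Schinzel's Goldbach-type hypothesis for almost primes and restricted digits, for every `N`

Fix `g ≥ 1`, integer polynomials `F_1, ..., F_g` and `G`, and a base `b ≥ 2`. For `k ≥ 1` choose for
every position `i < k` a set `D i` of digits, in any way, such that two digits in `D i` have a
difference without prime factors outside `b`, for example two consecutive digits. Let `S` be the set of
the integers `0 ≤ n < b ^ k` whose `i`-th digit is in `D i` for every `i`; it may have only `2 ^ k`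
elements. Let `H_N(n) = F_1(n) ⋯ F_g(n) (N - G(n))`, let `ω_N(p)` be the number of the `n` modulo `p`
with `p ∣ H_N(n)`, and let `V(y) = ∏_{p ≤ y} (1 - 1 / p)` and

  `𝔖(N, y) = ∏_{p ≤ y} (1 - ω_N(p) / p) (1 - 1 / p) ^ (- g - 1)`,

the partial product of the series `𝔖(N)` of the problem.

(1) For every `ε > 0` there are `L` and `k₀` such that for all `k ≥ k₀`, all choices of the sets of
digits, ALL integers `N`, of any size, for which `H_N` has no fixed prime divisor, and all `y ≥ b` with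
`y ^ L ≤ b ^ k` the number of the `n ∈ S` for which none of `F_1(n), ..., F_g(n), N - G(n)` has a prime
factor `≤ y` is

  `(1 + θ) · d · ∏_{i ≥ 1} |D i| · ∏_{p ∣ b} (1 - ω_N(p) / p)⁻¹ · 𝔖(N, y) V(y) ^ (g + 1)`, `|θ| ≤ ε`,

where `d` is the number of the last digits `a ∈ D 0` for which `H_N(a)` is coprime to `b`.

(2) Let `c` be the sum of the degrees. There are `r`, `k₀` and `δ > 0` such that for all `C`, all
`k ≥ k₀`, all sets of digits and all `N` with `|N| ≤ b ^ (C k)` for which `H_N` has no fixed prime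
divisor and `d ≥ 1` at least `δ |S| / k ^ c` of the `n ∈ S` are such that `H_N(n)` is not zero and has
at most `r (C + 1)` prime factors.
-/

set_option autoImplicit false

namespace Pool.Agent.Results.MP_0bf1d2_nt.EveryNDigits

open Finset Polynomial

/-- The integers `0 ≤ n < b ^ k` whose `i`-th digit in base `b` belongs to `D i`, for all `i < k`. -/
def Restricted (b k : ℕ) (D : Fin k → Finset ℕ) : Finset ℕ :=
  (Finset.range (b ^ k)).filter (fun n => ∀ i : Fin k, n / b ^ (i : ℕ) % b ∈ D i)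

/-- Each `D i` is a set of digits, and it has two digits `c < c'` such that every prime factor of
`c' - c` divides `b`. -/
def DigitSets (b k : ℕ) (D : Fin k → Finset ℕ) : Prop :=
  ∀ i, (∀ d ∈ D i, d < b) ∧ ∃ c ∈ D i, ∃ c' ∈ D i, c < c' ∧
    ∀ p : ℕ, p.Prime → p ∣ c' - c → p ∣ b

variable {g : ℕ}

/-- The product `H_N(n) = F_1(n) ⋯ F_g(n) (N - G(n))`. -/
def value (F : Fin g → ℤ[X]) (G : ℤ[X]) (N : ℤ) (n : ℕ) : ℤ :=
  (∏ j, (F j).eval (n : ℤ)) * (N - G.eval (n : ℤ))

/-- `H_N` has no fixed prime divisor. -/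
def NoFixed (F : Fin g → ℤ[X]) (G : ℤ[X]) (N : ℤ) : Prop :=
  ∀ p : ℕ, p.Prime → ∃ n : ℕ, ¬ (p : ℤ) ∣ value F G N n

open Classical in
/-- The `n ∈ S` such that none of `F_1(n), ..., F_g(n), N - G(n)` has a prime factor `≤ y`. -/
noncomputable def Good (b k : ℕ) (D : Fin k → Finset ℕ) (F : Fin g → ℤ[X]) (G : ℤ[X]) (N : ℤ)
    (y : ℕ) : Finset ℕ :=
  (Restricted b k D).filter (fun n => ∀ p : ℕ, p.Prime → p ≤ y →
    (∀ j, ¬ (p : ℤ) ∣ (F j).eval (n : ℤ)) ∧ ¬ (p : ℤ) ∣ N - G.eval (n : ℤ))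

open Classical in
/-- The number of the residues `n` modulo `p` such that `p ∣ H_N(n)`. -/
noncomputable def omega (F : Fin g → ℤ[X]) (G : ℤ[X]) (N : ℤ) (p : ℕ) : ℕ :=
  ((range p).filter (fun n => (p : ℤ) ∣ value F G N n)).card

/-- The product of `1 - 1 / p` over the primes `p ≤ y`. -/
noncomputable def V (y : ℕ) : ℝ := ∏ p ∈ (Finset.Icc 1 y).filter Nat.Prime, (1 - 1 / (p : ℝ))

/-- The partial product `𝔖(N, y)`. -/
noncomputable def singular (F : Fin g → ℤ[X]) (G : ℤ[X]) (N : ℤ) (y : ℕ) : ℝ :=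
  ∏ p ∈ (Finset.Icc 1 y).filter Nat.Prime,
    ((1 - 1 / (p : ℝ)) ^ (g + 1))⁻¹ * (1 - (omega F G N p : ℝ) / (p : ℝ))

/-- The number of the last digits `a` such that `H_N(a)` is coprime to `b`. -/
def lastDigits (b k : ℕ) (D : Fin k → Finset ℕ) (F : Fin g → ℤ[X]) (G : ℤ[X]) (N : ℤ) : ℕ :=
  (((Finset.univ : Finset (Fin k)).filter (fun i : Fin k => (i : ℕ) = 0)).biUnion
    (fun i => (D i).filter (fun a : ℕ => Int.gcd (value F G N a) b = 1))).card

/-- The product of the numbers of the elements of `D i` over the positions `i ≥ 1`. -/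
def otherDigits (k : ℕ) (D : Fin k → Finset ℕ) : ℕ :=
  ∏ i ∈ (Finset.univ : Finset (Fin k)).filter (fun i : Fin k => (i : ℕ) ≠ 0), (D i).card

/-- The main term. -/
noncomputable def mainTerm (b k : ℕ) (D : Fin k → Finset ℕ) (F : Fin g → ℤ[X]) (G : ℤ[X]) (N : ℤ)
    (y : ℕ) : ℝ :=
  (lastDigits b k D F G N : ℝ) * otherDigits k D *
    (∏ p ∈ b.primeFactors, (1 - (omega F G N p : ℝ) / (p : ℝ)))⁻¹ *
    (singular F G N y * V y ^ (g + 1))

open Pool.Agent.Q263.PK

/-- the polynomial -/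
noncomputable def Hp (F : Fin g → ℤ[X]) (G : ℤ[X]) (N : ℤ) : ℤ[X] := (∏ j, F j) * (C N - G)

lemma Hp_eval (F : Fin g → ℤ[X]) (G : ℤ[X]) (N : ℤ) (n : ℕ) :
    (Hp F G N).eval (n : ℤ) = value F G N n := by
  unfold Hp value
  rw [eval_mul, eval_prod, eval_sub, eval_C]

lemma value_eq (F : Fin g → ℤ[X]) (G : ℤ[X]) (N : ℤ) :
    (fun n : ℕ => (Hp F G N).eval (n : ℤ)) = value F G N := by
  funext n
  exact Hp_eval F G N n

lemma per (F : Fin g → ℤ[X]) (G : ℤ[X]) (N : ℤ) : Gen.PerG (value F G N) := by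
  rw [← value_eq]
  exact Gen.perG_poly _

/-- the sum of the degrees -/
noncomputable def degs (F : Fin g → ℤ[X]) (G : ℤ[X]) : ℕ := (∑ j, (F j).natDegree) + G.natDegree

lemma Hp_deg (F : Fin g → ℤ[X]) (G : ℤ[X]) (N : ℤ) : (Hp F G N).natDegree ≤ degs F G := by
  unfold Hp degs
  refine natDegree_mul_le.trans (add_le_add (natDegree_prod_le _ _) ?_)
  exact (natDegree_sub_le _ _).trans (by rw [natDegree_C]; simp)

lemma rho_le (F : Fin g → ℤ[X]) (G : ℤ[X]) (N : ℤ) (h : NoFixed F G N) (p : ℕ) (hp : p.Prime) :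
    Gen.rho (value F G N) p ≤ degs F G := by
  have h1 := Gen.rho_poly_le (Hp F G N) p hp (by
    by_contra hcon
    push Not at hcon
    obtain ⟨n, hn⟩ := h p hp
    apply hn
    rw [← Hp_eval, eval_eq_sum_range]
    exact Finset.dvd_sum fun i _ => (hcon i).mul_right _)
  rw [value_eq] at h1
  exact h1.trans (Hp_deg F G N)

open Classical in
lemma rho_lt (F : Fin g → ℤ[X]) (G : ℤ[X]) (N : ℤ) (h : NoFixed F G N) (p : ℕ) (hp : p.Prime) :
    Gen.rho (value F G N) p < p := by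
  obtain ⟨m, hm⟩ := h p hp
  have h1 : (range p).filter (fun r => (p : ℤ) ∣ value F G N r) ⊂ range p := by
    rw [Finset.ssubset_iff_of_subset (filter_subset _ _)]
    refine ⟨m % p, mem_range.2 (Nat.mod_lt _ hp.pos), fun h2 => hm ?_⟩
    exact (per F G N p m hp).2 (mem_filter.1 h2).2
  have h2 := card_lt_card h1
  rw [card_range] at h2
  exact h2

lemma omega_eq (F : Fin g → ℤ[X]) (G : ℤ[X]) (N : ℤ) (p : ℕ) :
    Gen.rho (value F G N) p = omega F G N p := rfl

lemma fac_pos (F : Fin g → ℤ[X]) (G : ℤ[X]) (N : ℤ) (h : NoFixed F G N) (p : ℕ) (hp : p.Prime) :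
    0 < 1 - (omega F G N p : ℝ) / (p : ℝ) := by
  have hp0 : (0 : ℝ) < p := by exact_mod_cast hp.pos
  have : (omega F G N p : ℝ) / p < 1 := by
    rw [div_lt_one hp0]
    exact_mod_cast rho_lt F G N h p hp
  linarith

lemma prod_all (F : Fin g → ℤ[X]) (G : ℤ[X]) (N : ℤ) (y : ℕ) :
    ∏ p ∈ (Finset.Icc 1 y).filter Nat.Prime, (1 - (omega F G N p : ℝ) / (p : ℝ)) =
    singular F G N y * V y ^ (g + 1) := by
  unfold singular V
  rw [← prod_pow, ← prod_mul_distrib]
  apply prod_congr rfl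
  intro p hp
  have hp2 : (2 : ℝ) ≤ p := by exact_mod_cast (mem_filter.1 hp).2.two_le
  have h2 : 1 / (p : ℝ) ≤ 1 / 2 := by
    apply div_le_div_of_nonneg_left (by norm_num) (by norm_num) hp2
  have h3 : 0 < (1 - 1 / (p : ℝ)) ^ (g + 1) := pow_pos (by linarith) _
  rw [mul_comm (((1 - 1 / (p : ℝ)) ^ (g + 1))⁻¹), mul_assoc, inv_mul_cancel₀ h3.ne', mul_one]

lemma main_eq (b k : ℕ) (hb : 2 ≤ b) (D : Fin k → Finset ℕ) (F : Fin g → ℤ[X]) (G : ℤ[X]) (N : ℤ)
    (h : NoFixed F G N) (y : ℕ) (hby : b ≤ y) :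
    Gen.mainTerm b k D (value F G N) y = mainTerm b k D F G N y := by
  unfold Gen.mainTerm mainTerm
  have e1 : ∏ p ∈ (Finset.Icc 1 y).filter (fun p => p.Prime ∧ ¬ p ∣ b),
      (1 - (Gen.rho (value F G N) p : ℝ) / (p : ℝ)) =
      (∏ p ∈ b.primeFactors, (1 - (omega F G N p : ℝ) / (p : ℝ)))⁻¹ *
        (singular F G N y * V y ^ (g + 1)) := by
    rw [← prod_all]
    have h2 : b.primeFactors ⊆ (Finset.Icc 1 y).filter Nat.Prime := by
      intro p hp
      rw [Nat.mem_primeFactors] at hp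
      rw [mem_filter, mem_Icc]
      have := Nat.le_of_dvd (by omega) hp.2.1
      exact ⟨⟨hp.1.one_lt.le, by omega⟩, hp.1⟩
    have h3 : (Finset.Icc 1 y).filter (fun p => p.Prime ∧ ¬ p ∣ b) =
        (Finset.Icc 1 y).filter Nat.Prime \ b.primeFactors := by
      ext p
      rw [mem_filter, mem_sdiff, mem_filter, mem_Icc, Nat.mem_primeFactors]
      constructor
      · rintro ⟨h4, h5, h6⟩
        exact ⟨⟨h4, h5⟩, fun h => h6 h.2.1⟩
      · rintro ⟨⟨h4, h5⟩, h6⟩
        exact ⟨h4, h5, fun h => h6 ⟨h5, h, by omega⟩⟩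
    rw [h3, ← prod_sdiff h2]
    have h4 : ∏ p ∈ b.primeFactors, (1 - (omega F G N p : ℝ) / (p : ℝ)) ≠ 0 :=
      (prod_pos fun p hp => fac_pos F G N h p (Nat.prime_of_mem_primeFactors hp)).ne'
    simp only [omega_eq]
    field_simp
  rw [e1]
  change (lastDigits b k D F G N : ℝ) * otherDigits k D * _ = _
  ring

open Classical in
lemma Good_eq (b k : ℕ) (D : Fin k → Finset ℕ) (F : Fin g → ℤ[X]) (G : ℤ[X]) (N : ℤ) (y : ℕ) :
    Gen.Start b k D (value F G N) y = Good b k D F G N y := by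
  unfold Gen.Start Good
  apply filter_congr
  intro n _
  unfold Gen.Rough
  apply forall_congr'
  intro p
  apply forall_congr'
  intro hp
  apply forall_congr'
  intro _
  have hpz : Prime (p : ℤ) := Nat.prime_iff_prime_int.1 hp
  unfold value
  rw [hpz.dvd_mul, not_or, hpz.dvd_finsetProd_iff]
  push Not
  simp

/-- size of the values -/
lemma size (f : ℤ[X]) : ∃ A d : ℕ, ∀ n : ℕ, (f.eval (n : ℤ)).natAbs ≤ A * (n + 1) ^ d := by
  refine ⟨∑ i ∈ range (f.natDegree + 1), (f.coeff i).natAbs, f.natDegree, fun n => ?_⟩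
  rw [eval_eq_sum_range]
  calc (∑ i ∈ range (f.natDegree + 1), f.coeff i * (n : ℤ) ^ i).natAbs
      ≤ ∑ i ∈ range (f.natDegree + 1), (f.coeff i * (n : ℤ) ^ i).natAbs := Int.natAbs_sum_le _ _
    _ ≤ ∑ i ∈ range (f.natDegree + 1), (f.coeff i).natAbs * (n + 1) ^ f.natDegree := by
        apply Finset.sum_le_sum
        intro i hi
        rw [Finset.mem_range] at hi
        rw [Int.natAbs_mul, Int.natAbs_pow, Int.natAbs_natCast]
        apply Nat.mul_le_mul_left
        calc n ^ i ≤ (n + 1) ^ i := Nat.pow_le_pow_left (by omega) i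
          _ ≤ (n + 1) ^ f.natDegree := Nat.pow_le_pow_right (by omega) (by omega)
    _ = _ := by rw [Finset.sum_mul]

open Classical in
theorem result : ∀ b : ℕ, 2 ≤ b → ∀ g : ℕ, 1 ≤ g → ∀ (F : Fin g → ℤ[X]) (G : ℤ[X]),
    (∀ ε : ℝ, 0 < ε → ∃ L k₀ : ℕ, 1 ≤ L ∧ ∀ k : ℕ, k₀ ≤ k →
      ∀ D : Fin k → Finset ℕ, DigitSets b k D → ∀ N : ℤ, NoFixed F G N →
      ∀ y : ℕ, b ≤ y → y ^ L ≤ b ^ k →
      |((Good b k D F G N y).card : ℝ) - mainTerm b k D F G N y| ≤ ε * mainTerm b k D F G N y) ∧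
    (∃ (r k₀ : ℕ) (δ : ℝ), 0 < δ ∧ ∀ C : ℕ, ∀ k : ℕ, k₀ ≤ k →
      ∀ D : Fin k → Finset ℕ, DigitSets b k D → ∀ N : ℤ, NoFixed F G N → N.natAbs ≤ b ^ (C * k) →
      1 ≤ lastDigits b k D F G N →
      δ * (Restricted b k D).card / (k : ℝ) ^ ((∑ j, (F j).natDegree) + G.natDegree) ≤
        (((Restricted b k D).filter (fun n : ℕ => value F G N n ≠ 0 ∧
          (value F G N n).natAbs.primeFactorsList.length ≤ r * (C + 1))).card : ℝ)) := by
  intro b hb g hg F G
  constructor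
  · intro ε hε
    obtain ⟨L, k₀, hL, h⟩ := Gen.count hb (degs F G) ε hε
    refine ⟨L, k₀, hL, fun k hk D hD N hN y hby hy => ?_⟩
    have h1 := h k hk D hD (value F G N) (per F G N) (rho_le F G N hN) y hby hy
    rw [main_eq b k hb D F G N hN y hby, Good_eq] at h1
    exact h1
  · obtain ⟨r, k₀, δ, hδ, h⟩ := Gen.almost hb (degs F G)
    obtain ⟨A1, d1, hs1⟩ := size (∏ j, F j)
    obtain ⟨A2, d2, hs2⟩ := size G
    refine ⟨r * (A1 + A2 + 2 * d1 + 2 * d2 + 2), k₀ + 1, δ, hδ, fun C k hk D hD N hN hNC hgd => ?_⟩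
    have hb1 : 1 < b := by omega
    obtain ⟨E, hE⟩ : ∃ E, E = A1 + A2 + 2 * d1 + 2 * d2 + 1 := ⟨_, rfl⟩
    have hsize : ∀ m < b ^ k, (value F G N m).natAbs ≤ b ^ ((C + E) * k) := by
      intro m hm
      have e1 : value F G N m = (∏ j, F j).eval (m : ℤ) * (N - G.eval (m : ℤ)) := by
        unfold value
        rw [eval_prod]
      have hk1 : 1 ≤ k := by omega
      have hbk : 1 ≤ b ^ k := Nat.one_le_pow _ _ (by omega)
      have hX : ∀ A d : ℕ, A * (m + 1) ^ d ≤ b ^ ((A + d) * k) := by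
        intro A d
        calc A * (m + 1) ^ d ≤ b ^ A * (b ^ k) ^ d :=
              Nat.mul_le_mul (Nat.lt_pow_self hb1).le (Nat.pow_le_pow_left (by omega) d)
          _ ≤ b ^ (A * k) * (b ^ k) ^ d := by
              apply Nat.mul_le_mul_right
              exact Nat.pow_le_pow_right (by omega) (Nat.le_mul_of_pos_right A (by omega))
          _ = b ^ ((A + d) * k) := by
              rw [← pow_mul, ← pow_add]
              congr 1
              ring
      rw [e1, Int.natAbs_mul]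
      have h2 : (N - G.eval (m : ℤ)).natAbs ≤ b ^ ((C + A2 + d2 + 1) * k) := by
        have h3 : (N - G.eval (m : ℤ)).natAbs ≤ N.natAbs + (G.eval (m : ℤ)).natAbs := Int.natAbs_sub_le _ _
        have h4 : 1 ≤ b ^ (C * k) := Nat.one_le_pow _ _ (by omega)
        have h5 : 1 ≤ b ^ ((A2 + d2) * k) := Nat.one_le_pow _ _ (by omega)
        have h6 : 2 ≤ b ^ k := hb.trans (Nat.le_self_pow (by omega) b)
        calc (N - G.eval (m : ℤ)).natAbs ≤ b ^ (C * k) + b ^ ((A2 + d2) * k) :=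
              h3.trans (add_le_add hNC ((hs2 m).trans (hX A2 d2)))
          _ ≤ 2 * (b ^ (C * k) * b ^ ((A2 + d2) * k)) := by nlinarith
          _ ≤ b ^ k * (b ^ (C * k) * b ^ ((A2 + d2) * k)) := Nat.mul_le_mul_right _ h6
          _ = b ^ ((C + A2 + d2 + 1) * k) := by
              rw [← pow_add, ← pow_add]
              congr 1
              ring
      calc ((∏ j, F j).eval (m : ℤ)).natAbs * (N - G.eval (m : ℤ)).natAbs
          ≤ b ^ ((A1 + d1) * k) * b ^ ((C + A2 + d2 + 1) * k) :=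
            Nat.mul_le_mul ((hs1 m).trans (hX A1 d1)) h2
        _ = b ^ ((A1 + d1 + (C + A2 + d2 + 1)) * k) := by
            rw [← pow_add]
            congr 1
            ring
        _ ≤ b ^ ((C + E) * k) := by
            apply Nat.pow_le_pow_right (by omega)
            apply Nat.mul_le_mul_right
            omega
    have h1 := h (C + E) k (by omega) D hD (value F G N) (per F G N) (rho_le F G N hN)
      (rho_lt F G N hN) hsize hgd
    refine h1.trans ?_
    apply Nat.cast_le.2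
    apply card_le_card
    intro n hn
    rw [mem_filter] at hn ⊢
    refine ⟨hn.1, hn.2.1, hn.2.2.trans ?_⟩
    rw [mul_assoc]
    apply Nat.mul_le_mul_left
    rw [hE]
    nlinarith

end Pool.Agent.Results.MP_0bf1d2_nt.EveryNDigits
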