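import Pool.Agent.Q145.MT.PolyOne
import Pool.Agent.Q145.MT.PIdx

set_option autoImplicit false
set_option maxHeartbeats 4000000

/-! # Schinzel's Goldbach-type hypothesis: the small solutions

`F_1, ..., F_g, G` as in the problem. For many admissible `N` exactly one prescribed small argument `a₀` is a
solution (`F_i(a₀)` and `N - G(a₀)` prime), and no other argument up to a bound `H` is one. -/

namespace Pool.Agent.Results.MP_0bf1d2_nt.LeastSolutions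

open Finset Filter Polynomial

open scoped Classical

/-- `F_1(n), ..., F_g(n)` are positive primes, `n ≥ 1` -/
def IsArg {g : ℕ} (F : Fin g → ℤ[X]) (n : ℕ) : Prop := 1 ≤ n ∧ ∀ i, ((F i).eval (n : ℤ)).toNat.Prime

/-- the arguments up to `H` -/
noncomputable def args {g : ℕ} (F : Fin g → ℤ[X]) (H : ℕ) : Finset ℕ := (Icc 1 H).filter (IsArg F)

/-- `n` is a solution for `N`: all of `F_1(n), ..., F_g(n), N - G(n)` are positive primes -/
def Sol {g : ℕ} (F : Fin g → ℤ[X]) (G : ℤ[X]) (N n : ℕ) : Prop :=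
  IsArg F n ∧ ((N : ℤ) - G.eval (n : ℤ)).toNat.Prime

/-- `N` is admissible: `N - G` is irreducible and `F_1 ⋯ F_g (N - G)` has no fixed prime divisor -/
def Admissible {g : ℕ} (F : Fin g → ℤ[X]) (G : ℤ[X]) (N : ℕ) : Prop :=
  Irreducible (C (N : ℤ) - G) ∧ ∀ p : ℕ, p.Prime → ∃ n : ℤ, ¬ (p : ℤ) ∣ ((∏ i, F i) * (C (N : ℤ) - G)).eval n

/-- the admissible `N` in `(X, 4X]` with the property `Q` -/
noncomputable def adm {g : ℕ} (F : Fin g → ℤ[X]) (G : ℤ[X]) (X : ℝ) (Q : ℕ → Prop) : Finset ℕ :=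
  (Icc 1 ⌊4 * X⌋₊).filter (fun N => X < N ∧ Admissible F G N ∧ Q N)

theorem mem_adm {g : ℕ} (F : Fin g → ℤ[X]) (G : ℤ[X]) (X : ℝ) (Q : ℕ → Prop) (N : ℕ) :
    N ∈ adm F G X Q ↔ (1 ≤ N ∧ N ≤ ⌊4 * X⌋₊) ∧ X < N ∧ Admissible F G N ∧ Q N := by
  unfold adm
  rw [mem_filter, mem_Icc]

theorem part1 {g : ℕ} (F : Fin g → ℤ[X]) (G : ℤ[X]) (hF : ∀ i, 0 < (F i).natDegree ∧ 0 < (F i).leadingCoeff)
    (hfix : ∀ p : ℕ, p.Prime → ∃ n : ℤ, ¬ (p : ℤ) ∣ (∏ i, F i).eval n)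
    (hG : 0 < G.natDegree) (hl : 0 < G.leadingCoeff) :
    ∃ n₀ : ℕ, ∀ k : ℕ, 1 ≤ k → ∃ c : ℝ, 0 < c ∧ ∀ᶠ X : ℝ in atTop, ∀ H a₀ : ℕ, n₀ ≤ a₀ → a₀ ≤ H → IsArg F a₀ →
      ((args F H).card : ℝ) ^ (1 - 1 / (k : ℝ)) * (H : ℝ) ^ (1 / (k : ℝ)) ≤ c * (Real.log X * Real.log (Real.log X)) →
      X ^ (4 / 5 : ℝ) < ((adm F G X (fun N => ∀ n ≤ H, Sol F G N n ↔ n = a₀)).card : ℝ) := by
  obtain ⟨n₁, hn₁⟩ := Pool.Agent.Q145.MT.ev_mono G hG hl
  obtain ⟨n₂, hn₂⟩ := Pool.Agent.Q145.MT.ev_large G hG hl 0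
  obtain ⟨δ, hδ⟩ : ∃ δ : ℕ, δ = (∏ i, F i).natDegree + G.natDegree := ⟨_, rfl⟩
  choose n₃ hn₃ using fun i => Pool.Agent.Q145.MT.ev_large (F i) (hF i).1 (hF i).2 δ
  refine ⟨max (max n₁ n₂) (univ.sup n₃), fun k hk => ?_⟩
  obtain ⟨c, hc, h⟩ := Pool.Agent.Q145.MT.polyOne G hG k hk
  refine ⟨c, hc, ?_⟩
  have h1 : ∀ᶠ X : ℝ in atTop, (1 : ℝ) ≤ X ^ (1 / 10 : ℝ) :=
    (tendsto_rpow_atTop (by norm_num : (0 : ℝ) < 1 / 10)).eventually_ge_atTop 1
  filter_upwards [h, h1, eventually_ge_atTop 1, eventually_ge_atTop (δ : ℝ),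
    eventually_ge_atTop ((G.leadingCoeff : ℤ) : ℝ)] with X hX h10 hX1 hXδ hXl
  intro H a₀ ha₀ ha₀H harg hcond
  have hX0 : 0 < X := by linarith
  have e1 : n₁ ≤ a₀ := (le_max_left _ _).trans ((le_max_left _ _).trans ha₀)
  have e2 : n₂ ≤ a₀ := (le_max_right _ _).trans ((le_max_left _ _).trans ha₀)
  have e3 : ∀ i, n₃ i ≤ a₀ := fun i => (le_sup (mem_univ i)).trans ((le_max_right _ _).trans ha₀)
  by_contra hcon
  push Not at hcon
  obtain ⟨N, p, hp, hXp, hpv, hN4, hNb, hbig, hnone⟩ := hX (args F H) H a₀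
    (fun a ha => mem_Icc.1 (mem_filter.1 ha).1) (mem_filter.2 ⟨mem_Icc.2 ⟨harg.1, ha₀H⟩, harg⟩) (hn₂ a₀ e2) hcond
    (adm F G X (fun N => ∀ n ≤ H, Sol F G N n ↔ n = a₀)) (by
      refine hcon.trans ?_
      exact Real.rpow_le_rpow_of_exponent_le hX1 (by norm_num))
  apply hNb
  have hNX : X < N := by
    have h2 : (p : ℤ) ≤ N := by
      rw [hpv]
      have := hn₂ a₀ e2
      linarith
    have h3 : (p : ℝ) ≤ N := by exact_mod_cast h2
    linarith
  rw [mem_adm]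
  refine ⟨⟨?_, Nat.le_floor hN4⟩, hNX, ⟨?_, ?_⟩, ?_⟩
  · have : (0 : ℝ) < N := by linarith
    exact_mod_cast this
  · apply Pool.Agent.Q145.MT.irr_sub G hG N a₀ _ hbig
    rw [← hpv]
    exact Nat.prime_iff_prime_int.1 hp
  · intro ℓ hℓ
    have hpδ : δ < p := by
      have : (δ : ℝ) < p := by linarith
      exact_mod_cast this
    obtain ⟨n, hn⟩ := Pool.Agent.Q145.MT.no_fixed (∏ i, F i) G hG N a₀ hfix (by
      intro q hq hqd
      rw [eval_prod] at hqd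
      obtain ⟨i, -, hi⟩ := (Prime.dvd_finsetProd_iff (Nat.prime_iff_prime_int.1 hq) _).1 hqd
      have h4 := harg.2 i
      have h5 := hn₃ i a₀ (e3 i)
      have h6 : (((F i).eval (a₀ : ℤ)).toNat : ℤ) = (F i).eval (a₀ : ℤ) := Int.toNat_of_nonneg (by
        have : (0 : ℤ) ≤ δ := Int.natCast_nonneg _
        linarith)
      rw [← h6] at hi h5
      have h7 := (Nat.prime_dvd_prime_iff_eq hq h4).1 (Int.natCast_dvd_natCast.1 hi)
      rw [h7, ← hδ]
      exact_mod_cast h5) p hp hpv (by rw [← hδ]; exact hpδ) (by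
      intro hd
      have h4 := Int.le_of_dvd hl hd
      have h5 : (p : ℝ) ≤ ((G.leadingCoeff : ℤ) : ℝ) := by exact_mod_cast h4
      linarith) ℓ hℓ
    refine ⟨n, ?_⟩
    rw [eval_mul, eval_sub, eval_C]
    exact hn
  · intro n hn
    constructor
    · rintro ⟨hna, hnp⟩
      by_contra hne
      refine hnone n (mem_filter.2 ⟨mem_Icc.2 ⟨hna.1, hn⟩, hna⟩) ?_ hnp
      rcases lt_or_gt_of_ne hne with h2 | h2
      · exact (hn₁ a₀ e1 n h2).ne
      · exact (hn₁ n (e1.trans h2.le) a₀ h2).ne'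
    · rintro rfl
      refine ⟨harg, ?_⟩
      rw [← hpv]
      simpa using hp

theorem part2 (G : ℤ[X]) (hG : 0 < G.natDegree) (hl : 0 < G.leadingCoeff) (β ε : ℝ) (hβ : 0 ≤ β) (hε : 0 < ε) (N₀ : ℕ) :
    ∃ N : ℕ, N₀ < N ∧ Admissible (fun _ : Fin 1 => (X : ℤ[X])) G N ∧
      ∃ q : ℕ, IsLeast {q : ℕ | q.Prime ∧ ((N : ℤ) - G.eval (q : ℤ)).toNat.Prime} q ∧
        |(q : ℝ) / (Real.log N * Real.log (Real.log N)) - β| < ε := by
  obtain ⟨n₀, h⟩ := part1 (fun _ : Fin 1 => (X : ℤ[X])) G (fun _ => by simp) (fun p hp => ⟨1, by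
    simp only [prod_const, card_univ, Fintype.card_fin, pow_one, eval_X]
    intro hd
    have h1 : p ∣ 1 := by exact_mod_cast hd
    exact hp.one_lt.ne' (Nat.dvd_one.1 h1)⟩) hG hl
  obtain ⟨c, hc, hev⟩ := h 2 (by norm_num)
  obtain ⟨Cp, hCp, y₀, hpi⟩ := Pool.Agent.Q145.MT.card_PIset 0
  -- the target
  obtain ⟨b, hb⟩ : ∃ b : ℝ, b = β + ε / 4 := ⟨_, rfl⟩
  have hb0 : 0 < b := by rw [hb]; positivity
  obtain ⟨ε₁, hε₁⟩ : ∃ ε₁ : ℝ, ε₁ = min (1 / 2) (ε / (8 * b)) := ⟨_, rfl⟩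
  have hε₁0 : 0 < ε₁ := by rw [hε₁]; positivity
  have hε₁1 : ε₁ < 1 := by rw [hε₁]; exact lt_of_le_of_lt (min_le_left _ _) (by norm_num)
  have hε₁b : ε₁ * b ≤ ε / 8 := by
    have : ε₁ ≤ ε / (8 * b) := by rw [hε₁]; exact min_le_right _ _
    calc ε₁ * b ≤ ε / (8 * b) * b := mul_le_mul_of_nonneg_right this hb0.le
      _ = ε / 8 := by field_simp
  obtain ⟨y₁, hbel⟩ := Pool.Agent.Q145.MT.PI_below 0 ε₁ hε₁0 hε₁1
  have t1 := Real.tendsto_log_atTop
  have t2 : Tendsto (fun y : ℝ => Real.log (Real.log y)) atTop atTop := t1.comp t1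
  have t3 : Tendsto (fun y : ℝ => Real.log (Real.log (Real.log y))) atTop atTop := t1.comp t2
  -- the parameters
  have evs : ∀ᶠ X : ℝ in atTop, (∀ H a₀ : ℕ, n₀ ≤ a₀ → a₀ ≤ H → IsArg (fun _ : Fin 1 => (Polynomial.X : ℤ[X])) a₀ →
      ((args (fun _ : Fin 1 => (Polynomial.X : ℤ[X])) H).card : ℝ) ^ (1 - 1 / ((2 : ℕ) : ℝ)) * (H : ℝ) ^ (1 / ((2 : ℕ) : ℝ)) ≤
        c * (Real.log X * Real.log (Real.log X)) →
      X ^ (4 / 5 : ℝ) < ((adm (fun _ : Fin 1 => (Polynomial.X : ℤ[X])) G X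
        (fun N => ∀ n ≤ H, Sol (fun _ : Fin 1 => (Polynomial.X : ℤ[X])) G N n ↔ n = a₀)).card : ℝ)) ∧
      (N₀ : ℝ) ≤ X ∧ 1 ≤ X ∧ (n₀ + y₀ + |y₁| + 4) / (b * (1 - ε₁)) + 100 + 400 * (b + 1) / ε ≤ Real.log X ∧
      1 ≤ Real.log (Real.log X) ∧ (Cp * (b + 1) ^ 2 / c ^ 2 + 1) ≤ Real.log (b * Real.log X) := by
    have t4 : Tendsto (fun y : ℝ => Real.log (b * Real.log y)) atTop atTop :=
      t1.comp (t1.const_mul_atTop hb0)
    filter_upwards [hev, eventually_ge_atTop (N₀ : ℝ), eventually_ge_atTop 1,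
      t1.eventually_ge_atTop ((n₀ + y₀ + |y₁| + 4) / (b * (1 - ε₁)) + 100 + 400 * (b + 1) / ε),
      t2.eventually_ge_atTop 1, t4.eventually_ge_atTop (Cp * (b + 1) ^ 2 / c ^ 2 + 1)] with X a1 a2 a3 a4 a5 a6
    exact ⟨a1, a2, a3, a4, a5, a6⟩
  obtain ⟨Y, hY, hYN, hY1, hL, hA1, hlast⟩ := evs.exists
  have hY0 : 0 < Y := by linarith
  set L := Real.log Y with hLdef
  set A := Real.log L with hAdef
  have h1ε : 0 < 1 - ε₁ := by linarith
  have hden : 0 < b * (1 - ε₁) := mul_pos hb0 h1ε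
  have hn₀0 : (0 : ℝ) ≤ n₀ := Nat.cast_nonneg _
  have hy₀0 : (0 : ℝ) ≤ y₀ := Nat.cast_nonneg _
  have hL1 : (n₀ + y₀ + |y₁| + 4) / (b * (1 - ε₁)) ≤ L := by
    have : 0 ≤ 400 * (b + 1) / ε := by positivity
    linarith
  have hL2 : 100 ≤ L := by
    have h2 : 0 ≤ 400 * (b + 1) / ε := by positivity
    have h3 : 0 ≤ (n₀ + y₀ + |y₁| + 4) / (b * (1 - ε₁)) := by positivity
    linarith
  have hL3 : 400 * (b + 1) / ε ≤ L := by
    have h3 : 0 ≤ (n₀ + y₀ + |y₁| + 4) / (b * (1 - ε₁)) := by positivity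
    linarith
  have hL0 : 0 < L := by linarith
  have hA0 : 0 < A := by linarith
  rw [div_le_iff₀ hden] at hL1
  obtain ⟨y, hy⟩ : ∃ y : ℝ, y = b * (L * A) := ⟨_, rfl⟩
  have hyL : b * L ≤ y := by
    rw [hy]
    apply mul_le_mul_of_nonneg_left _ hb0.le
    nlinarith
  have hy0 : 0 < y := by
    have : 0 < b * L := by positivity
    linarith
  have hybig : n₀ + y₀ + |y₁| + 4 ≤ (1 - ε₁) * y := by
    calc (n₀ : ℝ) + y₀ + |y₁| + 4 ≤ L * (b * (1 - ε₁)) := hL1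
      _ = (1 - ε₁) * (b * L) := by ring
      _ ≤ (1 - ε₁) * y := mul_le_mul_of_nonneg_left hyL h1ε.le
  have hyy : (1 - ε₁) * y ≤ y := by nlinarith
  have hab := abs_nonneg y₁
  obtain ⟨q, hqP, hq1, hq2⟩ := hbel y (by
    have := le_abs_self y₁
    linarith)
  rw [Pool.Agent.Q145.MT.PI_zero] at hqP
  set H := ⌊y⌋₊ with hH
  have hqH : q ≤ H := Nat.le_floor hq2
  have hHy : (H : ℝ) ≤ y := Nat.floor_le hy0.le
  have hqn₀ : n₀ ≤ q := by
    have : (n₀ : ℝ) < q := by linarith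
    exact_mod_cast this.le
  have hargq : ∀ n : ℕ, IsArg (fun _ : Fin 1 => (Polynomial.X : ℤ[X])) n ↔ n.Prime := by
    intro n
    unfold IsArg
    simp only [eval_X, Int.toNat_natCast, forall_const]
    exact ⟨fun h => h.2, fun h => ⟨h.one_le, h⟩⟩
  have hHy₀ : y₀ ≤ H := by
    have : (y₀ : ℝ) ≤ y := by linarith
    exact Nat.le_floor this
  have hcount := hpi H hHy₀
  have hargs : args (fun _ : Fin 1 => (Polynomial.X : ℤ[X])) H = Pool.Agent.Q145.MT.PIset 0 H := by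
    unfold args Pool.Agent.Q145.MT.PIset
    apply filter_congr
    intro n _
    rw [hargq, Pool.Agent.Q145.MT.PI_zero]
  have hcond : ((args (fun _ : Fin 1 => (Polynomial.X : ℤ[X])) H).card : ℝ) ^ (1 - 1 / ((2 : ℕ) : ℝ)) *
      (H : ℝ) ^ (1 / ((2 : ℕ) : ℝ)) ≤ c * (Real.log Y * Real.log (Real.log Y)) := by
    rw [hargs]
    have hHpos : (0 : ℝ) ≤ H := Nat.cast_nonneg _
    have e1 : (1 - 1 / ((2 : ℕ) : ℝ)) = 1 / 2 := by norm_num
    have e2 : (1 / ((2 : ℕ) : ℝ)) = 1 / 2 := by norm_num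
    rw [e1, e2, ← Real.mul_rpow (Nat.cast_nonneg _) hHpos, ← Real.sqrt_eq_rpow]
    apply Real.sqrt_le_iff.2
    refine ⟨by positivity, ?_⟩
    -- `log H` is large
    have hlogH : Cp * (b + 1) ^ 2 / c ^ 2 ≤ Real.log H := by
      have h3 : b * L / 2 ≤ H := by
        have h4 : y < H + 1 := Nat.lt_floor_add_one y
        have h5 : 4 ≤ (1 - ε₁) * y := by linarith
        have h6 : 4 ≤ y := by linarith
        linarith
      have h4 : Real.log (b * L / 2) ≤ Real.log H := Real.log_le_log (by positivity) h3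
      rw [Real.log_div (by positivity) (by norm_num)] at h4
      have := Real.log_two_lt_d9
      linarith
    have hlogH0 : 0 < Cp * (b + 1) ^ 2 / c ^ 2 := by positivity
    have hlog0 : 0 < Real.log H := by linarith
    rw [zero_add, pow_one] at hcount
    have h5 : ((Pool.Agent.Q145.MT.PIset 0 H).card : ℝ) ≤ c ^ 2 / (b + 1) ^ 2 * H := by
      have h6 : ((Pool.Agent.Q145.MT.PIset 0 H).card : ℝ) * (Cp * (b + 1) ^ 2 / c ^ 2) ≤ Cp * H :=
        (mul_le_mul_of_nonneg_left hlogH (Nat.cast_nonneg _)).trans hcount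
      have h7 : ((Pool.Agent.Q145.MT.PIset 0 H).card : ℝ) =
          ((Pool.Agent.Q145.MT.PIset 0 H).card : ℝ) * (Cp * (b + 1) ^ 2 / c ^ 2) * (c ^ 2 / (Cp * (b + 1) ^ 2)) := by
        field_simp
      rw [h7]
      calc _ ≤ Cp * H * (c ^ 2 / (Cp * (b + 1) ^ 2)) := mul_le_mul_of_nonneg_right h6 (by positivity)
        _ = _ := by field_simp
    calc ((Pool.Agent.Q145.MT.PIset 0 H).card : ℝ) * H ≤ (c ^ 2 / (b + 1) ^ 2 * H) * H :=
          mul_le_mul_of_nonneg_right h5 hHpos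
      _ = c ^ 2 / (b + 1) ^ 2 * (H * H) := by ring
      _ ≤ c ^ 2 / (b + 1) ^ 2 * (y * y) := by gcongr
      _ = (b / (b + 1)) ^ 2 * (c * (L * A)) ^ 2 := by rw [hy]; field_simp
      _ ≤ 1 * (c * (L * A)) ^ 2 := by
        apply mul_le_mul_of_nonneg_right _ (by positivity)
        apply pow_le_one₀ (by positivity)
        rw [div_le_one (by positivity)]
        linarith
      _ = _ := one_mul _
  have hmany := hY H q hqn₀ hqH ((hargq q).2 hqP) hcond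
  have hpos : 0 < (adm (fun _ : Fin 1 => (Polynomial.X : ℤ[X])) G Y
      (fun N => ∀ n ≤ H, Sol (fun _ : Fin 1 => (Polynomial.X : ℤ[X])) G N n ↔ n = q)).card := by
    have h3 := (Real.rpow_pos_of_pos hY0 _).trans hmany
    exact_mod_cast h3
  obtain ⟨N, hN⟩ := card_pos.1 hpos
  rw [mem_adm] at hN
  obtain ⟨⟨hN1, hN4⟩, hNY, hadm, hsol⟩ := hN
  refine ⟨N, ?_, hadm, q, ⟨?_, ?_⟩, ?_⟩
  · have : (N₀ : ℝ) < N := by linarith
    exact_mod_cast this
  · have h3 := (hsol q hqH).2 rfl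
    exact ⟨hqP, h3.2⟩
  · rintro r ⟨hr1, hr2⟩
    by_contra hcon
    push Not at hcon
    have h3 := (hsol r (hcon.le.trans hqH)).1 ⟨(hargq r).2 hr1, hr2⟩
    omega
  · -- the size of the quotient
    have hN0 : (0 : ℝ) < N := by linarith
    have hlog1 : L ≤ Real.log N := Real.log_le_log hY0 hNY.le
    have hlog2 : Real.log N ≤ L + 2 := by
      have h3 : (N : ℝ) ≤ 4 * Y := (Nat.cast_le.2 hN4).trans (Nat.floor_le (by positivity))
      have h4 : Real.log N ≤ Real.log (4 * Y) := Real.log_le_log hN0 h3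
      rw [Real.log_mul (by norm_num) hY0.ne'] at h4
      have h5 : Real.log 4 ≤ 2 := by
        have h6 : (4 : ℝ) = 2 ^ 2 := by norm_num
        rw [h6, Real.log_pow]
        have := Real.log_two_lt_d9
        push_cast
        linarith
      linarith
    have hll1 : A ≤ Real.log (Real.log N) := Real.log_le_log hL0 hlog1
    have hll2 : Real.log (Real.log N) ≤ A + 2 / L := by
      have h3 : Real.log (Real.log N) ≤ Real.log (L + 2) := Real.log_le_log (by linarith) hlog2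
      have h4 : Real.log (L + 2) = A + Real.log (1 + 2 / L) := by
        rw [← Real.log_mul hL0.ne' (by positivity)]
        congr 1
        field_simp
      have h5 : Real.log (1 + 2 / L) ≤ 2 / L := by
        have := Real.log_le_sub_one_of_pos (by positivity : 0 < 1 + 2 / L)
        linarith
      linarith
    set D := Real.log N * Real.log (Real.log N) with hD
    have hDlow : L * A ≤ D := mul_le_mul hlog1 hll1 hA0.le (by linarith)
    have hDup : D ≤ L * A + 4 * A + 4 := by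
      have h3 : D ≤ (L + 2) * (A + 2 / L) := mul_le_mul hlog2 hll2 (by linarith) (by linarith)
      have h4 : (L + 2) * (A + 2 / L) = L * A + 2 * A + 2 + 4 / L := by field_simp; ring
      have h5 : 4 / L ≤ 1 := by rw [div_le_one hL0]; linarith
      linarith
    have hLA : 0 < L * A := by positivity
    have hD0 : 0 < D := by linarith
    have hqy1 : (1 - ε₁) * (b * (L * A)) < q := by rw [← hy]; exact hq1
    have hqy2 : (q : ℝ) ≤ b * (L * A) := by rw [← hy]; exact hq2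
    have hs1 : 4 * A + 4 ≤ ε / (50 * (b + 1)) * (L * A) := by
      have h3 : 400 * (b + 1) / ε * A ≤ L * A := mul_le_mul_of_nonneg_right hL3 hA0.le
      have h4 : ε / (50 * (b + 1)) * (400 * (b + 1) / ε * A) = 8 * A := by field_simp; ring
      have h5 := mul_le_mul_of_nonneg_left h3 (by positivity : 0 ≤ ε / (50 * (b + 1)))
      rw [h4] at h5
      linarith
    have hβD : β * D ≤ β * (L * A) + ε / 50 * (L * A) := by
      have h3 : β * D ≤ β * (L * A + ε / (50 * (b + 1)) * (L * A)) :=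
        mul_le_mul_of_nonneg_left (by linarith) hβ
      have h4 : β * (ε / (50 * (b + 1)) * (L * A)) ≤ ε / 50 * (L * A) := by
        have h5 : β / (b + 1) ≤ 1 := by
          rw [div_le_one (by positivity)]
          linarith
        calc β * (ε / (50 * (b + 1)) * (L * A)) = β / (b + 1) * (ε / 50 * (L * A)) := by field_simp
          _ ≤ 1 * (ε / 50 * (L * A)) := mul_le_mul_of_nonneg_right h5 (by positivity)
          _ = _ := one_mul _
      linarith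
    rw [div_sub' hD0.ne', abs_div, abs_of_pos hD0, div_lt_iff₀ hD0, abs_lt]
    have hεD : ε * (L * A) ≤ ε * D := mul_le_mul_of_nonneg_left hDlow hε.le
    have hβD2 : β * (L * A) ≤ β * D := mul_le_mul_of_nonneg_left hDlow hβ
    have hεLA : 0 < ε * (L * A) := by positivity
    have hbb : b * (L * A) = β * (L * A) + ε / 4 * (L * A) := by rw [hb]; ring
    have hε₁bL : ε₁ * b * (L * A) ≤ ε / 8 * (L * A) := mul_le_mul_of_nonneg_right hε₁b hLA.le
    constructor <;> nlinarith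

theorem result :
    (∀ {g : ℕ} (F : Fin g → ℤ[X]) (G : ℤ[X]), (∀ i, 0 < (F i).natDegree ∧ 0 < (F i).leadingCoeff) →
      (∀ p : ℕ, p.Prime → ∃ n : ℤ, ¬ (p : ℤ) ∣ (∏ i, F i).eval n) → 0 < G.natDegree → 0 < G.leadingCoeff →
      ∃ n₀ : ℕ, ∀ k : ℕ, 1 ≤ k → ∃ c : ℝ, 0 < c ∧ ∀ᶠ X : ℝ in atTop, ∀ H a₀ : ℕ, n₀ ≤ a₀ → a₀ ≤ H → IsArg F a₀ →
        ((args F H).card : ℝ) ^ (1 - 1 / (k : ℝ)) * (H : ℝ) ^ (1 / (k : ℝ)) ≤ c * (Real.log X * Real.log (Real.log X)) →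
        X ^ (4 / 5 : ℝ) < ((adm F G X (fun N => ∀ n ≤ H, Sol F G N n ↔ n = a₀)).card : ℝ)) ∧
    (∀ G : ℤ[X], 0 < G.natDegree → 0 < G.leadingCoeff → ∀ β ε : ℝ, 0 ≤ β → 0 < ε → ∀ N₀ : ℕ,
      ∃ N : ℕ, N₀ < N ∧ Admissible (fun _ : Fin 1 => (X : ℤ[X])) G N ∧
        ∃ q : ℕ, IsLeast {q : ℕ | q.Prime ∧ ((N : ℤ) - G.eval (q : ℤ)).toNat.Prime} q ∧
          |(q : ℝ) / (Real.log N * Real.log (Real.log N)) - β| < ε) :=
  ⟨fun F G hF hfix hG hl => part1 F G hF hfix hG hl, fun G hG hl β ε hβ hε N₀ => part2 G hG hl β ε hβ hε N₀⟩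

end Pool.Agent.Results.MP_0bf1d2_nt.LeastSolutions
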