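import Pool.Agent.Q117.CB.Poly

/-!
# Schinzel's Goldbach-type hypothesis: narrow progressions of almost prime values, for every `N` and all short intervals

For every `r` there are `κ, c > 0` such that for all polynomials `F_1, ..., F_g`, `G` with sum of the degrees at most `r` and EVERY large `N`
for which `F_1 ⋯ F_g (N - G)` has no fixed prime divisor: in every interval of length `H ≥ N ^ ε` of the range of the problem at least the
expected number of the `n` has `F_1(n), ..., F_g(n), N - G(n)` free of prime factors `≤ H ^ κ`; every dense subset of the set of these `n`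
contains progressions of any length with difference `≤ log ^ D H`, and in every colouring there is such a progression of one colour along
which each of `F_1(n), ..., F_g(n), N - G(n)` has a constant number of prime factors.
-/

set_option autoImplicit false

namespace Pool.Agent.Results.MP_0bf1d2_nt.NarrowProgressions

open Finset Filter Polynomial
open Pool.Agent.Q117.CB
open Pool.Agent.Q253.Cov (pigeon Zf Zf_mem)
open Pool.Agent.Q253.Thin (SysZ IS)
open Pool.Agent.Y843.HS (Pr VV)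

variable {g : ℕ}

/-- `F_1(n) ⋯ F_g(n) (N - G(n))` -/
def value (F : Fin g → ℤ[X]) (G : ℤ[X]) (N n : ℤ) : ℤ := (∏ j, (F j).eval n) * (N - G.eval n)

/-- `F_1 ⋯ F_g (N - G)` has no fixed prime divisor -/
def NoFixed (F : Fin g → ℤ[X]) (G : ℤ[X]) (N : ℤ) : Prop :=
  ∀ p : ℕ, p.Prime → ∃ n : ℤ, ¬ (p : ℤ) ∣ value F G N n

/-- `ω_N(p)`: the number of the residues `n` modulo `p` with `p ∣ F_1(n) ⋯ F_g(n) (N - G(n))` -/
def omega (F : Fin g → ℤ[X]) (G : ℤ[X]) (N : ℤ) (p : ℕ) : ℕ :=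
  ((range p).filter (fun n : ℕ => (p : ℤ) ∣ value F G N n)).card

/-- the product of the `1 - ω_N(p) / p` over the primes `p ≤ H` -/
noncomputable def dens (F : Fin g → ℤ[X]) (G : ℤ[X]) (N : ℤ) (H : ℕ) : ℝ :=
  ∏ p ∈ (Icc 1 H).filter Nat.Prime, (1 - (omega F G N p : ℝ) / p)

open Classical in
/-- the `n` of `(A, A + H]` for which none of `F_1(n), ..., F_g(n), N - G(n)` has a prime factor `≤ H ^ κ` -/
noncomputable def good (F : Fin g → ℤ[X]) (G : ℤ[X]) (N : ℤ) (κ : ℝ) (A H : ℕ) : Finset ℕ :=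
  (Ioc A (A + H)).filter (fun n : ℕ => ∀ p : ℕ, p.Prime → (p : ℤ) ∣ value F G N n → (H : ℝ) ^ κ < p)

/-- the number of the prime factors of `|v|`, with multiplicity -/
def bigOmega (v : ℤ) : ℕ := v.natAbs.primeFactorsList.length

/-- the polynomial `F_1 ⋯ F_g (N - G)` -/
noncomputable def Hp (F : Fin g → ℤ[X]) (G : ℤ[X]) (N : ℤ) : ℤ[X] := (∏ j, F j) * (C N - G)

lemma Hp_eval (F : Fin g → ℤ[X]) (G : ℤ[X]) (N n : ℤ) : (Hp F G N).eval n = value F G N n := by
  unfold Hp value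
  rw [eval_mul, eval_prod, eval_sub, eval_C]

lemma Hp_deg (F : Fin g → ℤ[X]) (G : ℤ[X]) (N : ℤ) : (Hp F G N).natDegree ≤ (∑ j, (F j).natDegree) + G.natDegree := by
  unfold Hp
  refine natDegree_mul_le.trans (add_le_add (natDegree_prod_le _ _) ?_)
  refine (natDegree_sub_le _ _).trans ?_
  rw [natDegree_C]
  simp

lemma dens_eq (F : Fin g → ℤ[X]) (G : ℤ[X]) (N : ℤ) (H : ℕ) : dens F G N H = VV (Zf (Hp F G N)) 0 H := by
  unfold dens VV Pr
  have h : (Icc 1 H).filter Nat.Prime = (Ioc 0 H).filter Nat.Prime := by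
    ext p
    simp only [mem_filter, mem_Icc, mem_Ioc]
    constructor
    · rintro ⟨⟨h1, h2⟩, h3⟩
      exact ⟨⟨by omega, h2⟩, h3⟩
    · rintro ⟨⟨h1, h2⟩, h3⟩
      exact ⟨⟨by omega, h2⟩, h3⟩
  rw [h]
  apply prod_congr rfl
  intro p _
  unfold omega Zf
  simp_rw [Hp_eval]

lemma good_eq (F : Fin g → ℤ[X]) (G : ℤ[X]) (N : ℤ) (t A H : ℕ) :
    good F G N (1 / (t : ℝ)) A H = IS t H A (A + H) (Zf (Hp F G N)) := by
  classical
  ext n
  unfold good IS
  rw [mem_filter, mem_filter]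
  refine and_congr_right fun _ => ?_
  constructor
  · intro h q hq hqH hmem
    rw [Zf_mem _ hq.pos, Hp_eval] at hmem
    have := h q hq hmem
    linarith
  · intro h p hp hpd
    by_contra hcon
    push Not at hcon
    apply h p hp hcon
    rw [Zf_mem _ hp.pos, Hp_eval]
    exact hpd

/-- **Narrow progressions of almost prime values of `F_1, ..., F_g, N - G`, for every `N` and all short intervals.** For every `r ≥ 1` there
are `κ, c > 0` such that for all `F_1, ..., F_g, G` in `ℤ[x]` of positive degrees and with positive leading coefficients, the sum of the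
degrees being at most `r`, and all `L`, `C ≥ 1`, `ε > 0`, `η > 0` there are `R`, `D` and `N₀` such that for EVERY `N ≥ N₀` for which
`F_1 ⋯ F_g (N - G)` has no fixed prime divisor, and EVERY interval `(A, A + H]` with `H ≥ N ^ ε` on which `G < N` and `F_1, ..., F_g > 0`:

(1) for at least `c H dens H` of the `n` in the interval none of `F_1(n), ..., F_g(n), N - G(n)` has a prime factor `≤ H ^ κ`; for these `n`
each of these numbers has at most `R` prime factors; `dens H ≥ c / log ^ r H`;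

(2) every subset of the set of these `n` of relative density at least `η` contains a progression of `L` terms with difference
`1 ≤ d ≤ log ^ D H`;

(3) for every colouring of the integers with `C` colours there are `s_0, ..., s_g ≤ R` and a progression of `L` such `n` of one colour,
with difference `1 ≤ d ≤ log ^ D H`, along which `N - G(n)` has exactly `s_0` and `F_j(n)` exactly `s_j` prime factors. -/
theorem result : ∀ r : ℕ, 1 ≤ r → ∃ κ c : ℝ, 0 < κ ∧ 0 < c ∧ ∀ (g : ℕ) (F : Fin g → ℤ[X]) (G : ℤ[X]),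
    (∀ j, 1 ≤ (F j).natDegree ∧ 0 < (F j).leadingCoeff) → 1 ≤ G.natDegree → 0 < G.leadingCoeff →
    (∑ j, (F j).natDegree) + G.natDegree ≤ r → ∀ (L K : ℕ) (ε η : ℝ), 1 ≤ K → 0 < ε → 0 < η →
    ∃ R D N₀ : ℕ, ∀ N : ℕ, N₀ ≤ N → NoFixed F G N → ∀ A H : ℕ, (N : ℝ) ^ ε ≤ H →
      (∀ n : ℕ, A < n → n ≤ A + H → G.eval (n : ℤ) < N ∧ ∀ j, 0 < (F j).eval (n : ℤ)) →
      c * (H * dens F G N H) ≤ ((good F G N κ A H).card : ℝ) ∧
      (∀ n ∈ good F G N κ A H, bigOmega (N - G.eval (n : ℤ)) ≤ R ∧ ∀ j, bigOmega ((F j).eval (n : ℤ)) ≤ R) ∧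
      c / Real.log H ^ r ≤ dens F G N H ∧
      (∀ S ⊆ good F G N κ A H, η * ((good F G N κ A H).card : ℝ) ≤ S.card →
        ∃ m d : ℕ, 1 ≤ d ∧ (d : ℝ) ≤ Real.log H ^ D ∧ ∀ i < L, m + i * d ∈ S) ∧
      (∀ col : ℕ → Fin K, ∃ s₀ ≤ R, ∃ s : Fin g → ℕ, (∀ j, s j ≤ R) ∧ ∃ i₀ : Fin K, ∃ m d : ℕ, 1 ≤ d ∧ (d : ℝ) ≤ Real.log H ^ D ∧
        ∀ i < L, m + i * d ∈ good F G N κ A H ∧ col (m + i * d) = i₀ ∧
          bigOmega (N - G.eval ((m + i * d : ℕ) : ℤ)) = s₀ ∧ ∀ j, bigOmega ((F j).eval ((m + i * d : ℕ) : ℤ)) = s j) := by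
  classical
  intro r hr
  obtain ⟨t, ht, c, hc, HM⟩ := master r hr
  have ht0 : (0 : ℝ) < t := by exact_mod_cast ht
  refine ⟨1 / t, c, by positivity, hc, ?_⟩
  intro g F G hF hG1 hG2 hdeg L K ε η hK1 hε hη
  -- sizes
  obtain ⟨K₁, N₁, hlow⟩ := eval_lower G hG1 hG2
  obtain ⟨N₂, hGb⟩ := eval_bound2 G K₁
  have hFb : ∀ j, ∃ N₀ : ℕ, ∀ N : ℕ, N₀ ≤ N → ∀ n : ℕ, n ≤ K₁ * N → ((F j).eval (n : ℤ)).natAbs ≤ N ^ ((F j).natDegree + 1) :=
    fun j => eval_bound2 (F j) K₁
  choose N₃ hFb using hFb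
  obtain ⟨R, hR⟩ : ∃ R, R = ⌈(r + 2) / ε * t⌉₊ := ⟨_, rfl⟩
  have hRr : (r + 2) / ε * t ≤ R := by rw [hR]; exact Nat.le_ceil _
  obtain ⟨Kf, hKdef⟩ : ∃ Kf : Finset (ℕ × (Fin g → ℕ) × Fin K),
    Kf = range (R + 1) ×ˢ ((Fintype.piFinset (fun _ : Fin g => range (R + 1))) ×ˢ univ) := ⟨_, rfl⟩
  have hKne : Kf.Nonempty := by
    refine ⟨(0, fun _ => 0, ⟨0, hK1⟩), ?_⟩
    rw [hKdef, mem_product, mem_product, Fintype.mem_piFinset]
    exact ⟨mem_range.2 (Nat.succ_pos _), fun _ => mem_range.2 (Nat.succ_pos _), mem_univ _⟩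
  have hKc : (0 : ℝ) < Kf.card := by exact_mod_cast hKne.card_pos
  obtain ⟨η', hη'⟩ : ∃ η' : ℝ, η' = min η (1 / Kf.card) := ⟨_, rfl⟩
  have hη0 : 0 < η' := by rw [hη']; positivity
  have hη1 : η' ≤ η := by rw [hη']; exact min_le_left _ _
  have hη2 : η' ≤ 1 / Kf.card := by rw [hη']; exact min_le_right _ _
  obtain ⟨D, H₀, HM⟩ := HM L η' hη0
  have ev1 : ∀ᶠ N : ℕ in atTop, (H₀ : ℝ) + 2 ≤ (N : ℝ) ^ ε :=
    ((tendsto_rpow_atTop hε).comp tendsto_natCast_atTop_atTop).eventually_ge_atTop _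
  obtain ⟨N₄, hN₄⟩ := eventually_atTop.1 ev1
  refine ⟨R, D, N₁ + N₂ + (∑ j, N₃ j) + N₄ + 2, ?_⟩
  intro N hN hNF A H hH hpos
  have hN3 : ∀ j, N₃ j ≤ N := by
    intro j
    have := single_le_sum (f := N₃) (fun i _ => Nat.zero_le _) (mem_univ j)
    omega
  have e1 := hN₄ N (by omega)
  have hHr : (H₀ : ℝ) + 2 ≤ H := e1.trans hH
  have hHn : H₀ + 2 ≤ H := by exact_mod_cast hHr
  have hH2 : 2 ≤ H := by omega
  have hN2 : 2 ≤ N := by omega
  have hNr : (2 : ℝ) ≤ N := by exact_mod_cast hN2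
  have hsys : SysZ r (Zf (Hp F G N)) := by
    apply sys_poly _ _ ((Hp_deg F G N).trans hdeg)
    intro p hp
    obtain ⟨n, hn⟩ := hNF p hp
    exact ⟨n, by rw [Hp_eval]; exact hn⟩
  obtain ⟨h1, h2, h3⟩ := HM H (by omega) (Zf (Hp F G N)) hsys A
  rw [← good_eq] at h1 h3
  have hNH : ∀ v : ℕ, v ≤ N ^ (r + 2) → (v : ℝ) ≤ (H : ℝ) ^ ((r + 2) / ε) := by
    intro v hv
    have h4 : (v : ℝ) ≤ (N : ℝ) ^ (r + 2) := by exact_mod_cast hv
    refine h4.trans ?_
    calc (N : ℝ) ^ (r + 2) = ((N : ℝ) ^ ε) ^ ((r + 2) / ε : ℝ) := by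
          rw [← Real.rpow_mul (by linarith), mul_div_cancel₀ _ hε.ne', ← Real.rpow_natCast]
          push_cast
          rfl
      _ ≤ _ := Real.rpow_le_rpow (by positivity) hH (by positivity)
  have hom : ∀ n ∈ good F G N (1 / (t : ℝ)) A H, bigOmega (N - G.eval (n : ℤ)) ≤ R ∧ ∀ j, bigOmega ((F j).eval (n : ℤ)) ≤ R := by
    intro n hn
    unfold good at hn
    rw [mem_filter, mem_Ioc] at hn
    obtain ⟨⟨n1, n2⟩, n3⟩ := hn
    obtain ⟨hGn, hFn⟩ := hpos n n1 n2
    have hnK : n ≤ K₁ * N := hlow N (by omega) n hGn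
    have hGdeg : G.natDegree ≤ r := by omega
    have hFdeg : ∀ j, (F j).natDegree ≤ r := by
      intro j
      have h4 : (F j).natDegree ≤ ∑ j, (F j).natDegree :=
        single_le_sum (f := fun j => (F j).natDegree) (fun i _ => Nat.zero_le _) (mem_univ j)
      omega
    constructor
    · unfold bigOmega
      refine omega_le (M := (r + 2) / ε) hH2 ht0 (by omega) (hNH _ ?_) (fun q hq hqd => (n3 q hq ?_).le) (by linarith)
      · have h4 := hGb N (by omega) n hnK
        have h5 : (((N : ℤ) - G.eval (n : ℤ))).natAbs ≤ N + (G.eval (n : ℤ)).natAbs := by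
          have := Int.natAbs_sub_le (N : ℤ) (G.eval (n : ℤ))
          simpa using this
        have h6 : N ^ (G.natDegree + 1) ≤ N ^ (r + 1) := Nat.pow_le_pow_right (by omega) (by omega)
        have h7 : N ≤ N ^ (r + 1) := Nat.le_self_pow (by omega) N
        calc _ ≤ N + (G.eval (n : ℤ)).natAbs := h5
          _ ≤ N ^ (r + 1) + N ^ (r + 1) := add_le_add h7 (h4.trans h6)
          _ = 2 * N ^ (r + 1) := by ring
          _ ≤ N * N ^ (r + 1) := Nat.mul_le_mul_right _ hN2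
          _ = N ^ (r + 2) := by ring
      · unfold value
        exact (Int.natCast_dvd.2 hqd).mul_left _
    · intro j
      unfold bigOmega
      have := hFn j
      refine omega_le (M := (r + 2) / ε) hH2 ht0 (by omega) (hNH _ ?_) (fun q hq hqd => (n3 q hq ?_).le) (by linarith)
      · have h4 := hFb j N (hN3 j) n hnK
        refine h4.trans (Nat.pow_le_pow_right (by omega) ?_)
        have := hFdeg j
        omega
      · unfold value
        exact ((Int.natCast_dvd.2 hqd).trans (dvd_prod_of_mem (fun j => (F j).eval (n : ℤ)) (mem_univ j))).mul_right _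
  refine ⟨by rw [dens_eq]; exact h1, hom, by rw [dens_eq]; exact h2, ?_, ?_⟩
  · intro S hS hSc
    exact h3 S hS ((mul_le_mul_of_nonneg_right hη1 (Nat.cast_nonneg _)).trans hSc)
  · intro col
    obtain ⟨⟨s₀, s, i₀⟩, hK, hcard⟩ := pigeon (good F G N (1 / (t : ℝ)) A H) Kf
      (fun n => (bigOmega (N - G.eval (n : ℤ)), fun j => bigOmega ((F j).eval (n : ℤ)), col n)) (by
        intro n hn
        rw [hKdef, mem_product, mem_product, Fintype.mem_piFinset]
        exact ⟨mem_range.2 (Nat.lt_succ_of_le (hom n hn).1), fun j => mem_range.2 (Nat.lt_succ_of_le ((hom n hn).2 j)), mem_univ _⟩) hKne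
    rw [hKdef, mem_product, mem_product, Fintype.mem_piFinset] at hK
    obtain ⟨m, d, hd1, hd2, hd3⟩ := h3 _ (filter_subset _ _)
      ((mul_le_mul_of_nonneg_right hη2 (Nat.cast_nonneg _)).trans hcard)
    refine ⟨s₀, Nat.lt_succ_iff.1 (mem_range.1 hK.1), s, fun i => Nat.lt_succ_iff.1 (mem_range.1 (hK.2.1 i)), i₀, m, d, hd1, hd2,
      fun i hi => ?_⟩
    have h4 := hd3 i hi
    rw [mem_filter] at h4
    obtain ⟨h5, h6⟩ := h4
    rw [Prod.mk.injEq, Prod.mk.injEq] at h6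
    exact ⟨h5, h6.2.2, h6.1, fun j => congrFun h6.2.1 j⟩

end Pool.Agent.Results.MP_0bf1d2_nt.NarrowProgressions
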