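import Pool.Agent.Q197.BH.Formula
import Pool.Agent.Q197.BH.Level

/-!
# Schinzel's formula for sieved random primes, for all systems of polynomials at once

Let `z(n)` be a sieving level: nondecreasing, unbounded, `z(n) ≤ n ^ ε` for large `n` and every `ε > 0`, and such that
the sum of the `1 / p` over the primes `z(n) < p ≤ z(n ^ C)` tends to `0` for every `C` (for instance `z(n) = ⌊log n⌋`).
The sieved random model of level `z`: the events `n ∈ A` are independent; for all large `n` the number `n` is in `A`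
with the probability `1 / (V log n)`, `V = ∏_{p ≤ z(n)} (1 - 1 / p)`, if `n` has no prime factor `≤ z(n)`, and with
the probability `0` otherwise.

Almost surely Schinzel's formula for the number of the `n` with all of `F_1(n), ..., F_g(n), N - G(n)` in `A` holds
for all `g`, `F_1, ..., F_g` and `G` as `N → ∞` through all `N` for which `F_1 ⋯ F_g (N - G)` has no fixed prime
divisor, with the singular series truncated at `z(X)`. More generally almost surely the Bateman-Horn formula holds with
a uniform relative error for all systems of `m` polynomials of degrees `≤ d` whose coefficients are at most `N ^ C`,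
for the arguments `x ≤ N`.
-/

set_option autoImplicit false

namespace Pool.Agent.Results.MP_0bf1d2_nt.SievedRandomPrimes

open MeasureTheory Filter Polynomial Pool.Agent.Q253.Line Pool.Agent.Q197.BH
open scoped Topology

theorem result :
    Level (fun n => ⌊Real.log (n : ℝ)⌋₊) ∧
    (∀ z : ℕ → ℕ, Level z →
      ∃ (Ω : Type) (_ : MeasurableSpace Ω) (μ : Measure Ω) (A : Ω → Set ℕ), IsProbabilityMeasure μ ∧ Model μ A z) ∧
    ∀ z : ℕ → ℕ, Level z → ∀ (Ω : Type) [MeasurableSpace Ω] (μ : Measure Ω) [IsProbabilityMeasure μ] (A : Ω → Set ℕ),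
      Model μ A z →
      -- Schinzel's formula
      (∀ᵐ ω ∂μ, ∀ (g : ℕ) (F : Fin g → ℤ[X]) (G : ℤ[X]),
        (∀ i, 1 ≤ (F i).natDegree ∧ 0 < (F i).leadingCoeff) → Function.Injective F →
        1 ≤ G.natDegree → 0 < G.leadingCoeff → ∀ ε : ℝ, 0 < ε → ∀ᶠ N : ℕ in atTop,
        NFD ((∏ i, F i) * (C (N : ℤ) - G)) →
          (XN G N : ℝ) ^ (1 - ε) ≤ SM z F G N ∧ |Q1 F G (A ω) N - SM z F G N| ≤ ε * SM z F G N) ∧
      -- all systems at once
      ∀ᵐ ω ∂μ, ∀ (m d C : ℕ) (ε : ℝ), 0 < ε → ∀ᶠ N : ℕ in atTop, ∀ f : Fin m → ℤ[X], Sys m d C N f →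
        (N : ℝ) ^ (1 - ε) ≤ MT z f N ∧ |cntS f N (A ω) - MT z f N| ≤ ε * MT z f N := by
  refine ⟨level_log, fun z hz => model_exists hz, fun z hz Ω _ μ _ A hM => ⟨schinzel hM hz, ?_⟩⟩
  filter_upwards [uniform hM hz] with ω h m d C ε hε
  filter_upwards [h m d C ε hε, MT_lower hz m d C (b := 1) one_pos hε] with N h1 h2 f hf
  have h3 := h2 f hf
  rw [one_mul] at h3
  exact ⟨h3, h1 f hf⟩

end Pool.Agent.Results.MP_0bf1d2_nt.SievedRandomPrimes
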